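import Pool.Agent.Q7.LK.Stm

/-! Project LK (helper7), job HS2: the Hilbert symbols. -/

set_option autoImplicit false
set_option linter.unusedSectionVars false
set_option linter.deprecated false

namespace Pool.Agent.Q162.LK

open NumberField IsDedekindDomain Filter Topology Polynomial
open Pool.Agent.Q7.LK

section
variable {F : Type} [Field F] [NumberField F]

/-- a nonzero number is a unit at almost all primes -/
lemma fin_val {c : F} (hc : c ≠ 0) :
    {v : HeightOneSpectrum (𝓞 F) | v.valuation F c ≠ 1}.Finite := by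
  have h1 := HeightOneSpectrum.Support.finite (𝓞 F) c
  have h2 := HeightOneSpectrum.Support.finite (𝓞 F) c⁻¹
  refine (h1.union h2).subset ?_
  intro v hv
  have hv0 : v.valuation F c ≠ 0 := (Valuation.ne_zero_iff _).2 hc
  rcases lt_or_gt_of_ne hv with h | h
  · right
    change 1 < v.valuation F c⁻¹
    rw [map_inv₀]
    exact (one_lt_inv₀ (zero_lt_iff.2 hv0)).2 h
  · left
    exact h

lemma fin_vl (p : ℕ) {c : F} (hc : c ≠ 0) :
    {v : HeightOneSpectrum (𝓞 F) | vl p v c ≠ 0}.Finite := by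
  refine (fin_val hc).subset ?_
  intro v hv h
  apply hv
  unfold vl
  rw [h, WithZero.log_one]
  simp

lemma fin_dp {p : ℕ} (hp : p ≠ 0) : {v : HeightOneSpectrum (𝓞 F) | Dp p v}.Finite := by
  have hp' : (p : F) ≠ 0 := Nat.cast_ne_zero.2 hp
  refine (fin_val hp').subset ?_
  intro v hv h
  have h1 : (v.valuation F (algebraMap (𝓞 F) F (p : 𝓞 F))) = 1 := by
    rw [map_natCast]; exact h
  exact (HeightOneSpectrum.valuation_eq_one_iff_notMem (K := F) (v := v)).mp h1 hv

lemma exp_lt_of_ne {x : WithZero (Multiplicative ℤ)} (hx : x ≠ 0) : ∃ n : ℕ, ∀ m : ℕ, n ≤ m →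
    WithZero.exp (-(m : ℤ)) < x := by
  refine ⟨(1 - WithZero.log x).toNat, fun m hm => ?_⟩
  rw [← WithZero.exp_log hx, WithZero.exp_lt_exp]
  omega

/-- weak approximation -/
theorem apx (T : Finset (HeightOneSpectrum (𝓞 F)))
    (a : HeightOneSpectrum (𝓞 F) → F) (n : ℕ) : ∃ y : F,
    ∀ v ∈ T, v.valuation F (y - a v) ≤ WithZero.exp (-(n : ℤ)) := by
  classical
  obtain ⟨d, hb⟩ := IsLocalization.exist_integer_multiples (nonZeroDivisors (𝓞 F)) T a
  have hd0 : ((d : 𝓞 F) : 𝓞 F) ≠ 0 := nonZeroDivisors.coe_ne_zero d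
  have hd' : (algebraMap (𝓞 F) F (d : 𝓞 F)) ≠ 0 := by
    intro h
    exact hd0 ((FaithfulSMul.algebraMap_injective (𝓞 F) F) (by rw [h, map_zero]))
  have hb' : ∀ v ∈ T, ∃ b : 𝓞 F, algebraMap (𝓞 F) F b = algebraMap (𝓞 F) F (d : 𝓞 F) * a v := by
    intro v hv
    obtain ⟨b, hb⟩ := hb v hv
    exact ⟨b, by rw [hb, Algebra.smul_def]⟩
  choose! b hb'' using hb'
  have hk : ∀ v : HeightOneSpectrum (𝓞 F), ∃ k : ℕ,
      v.valuation F (algebraMap (𝓞 F) F (d : 𝓞 F)) = WithZero.exp (-(k : ℤ)) := by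
    intro v
    have h0 : v.valuation F (algebraMap (𝓞 F) F (d : 𝓞 F)) ≠ 0 := (Valuation.ne_zero_iff _).2 hd'
    have h1 := v.valuation_le_one (K := F) (d : 𝓞 F)
    rw [← WithZero.exp_log h0, ← WithZero.exp_zero, WithZero.exp_le_exp] at h1
    refine ⟨(-(WithZero.log (v.valuation F (algebraMap (𝓞 F) F (d : 𝓞 F))))).toNat, ?_⟩
    conv_lhs => rw [← WithZero.exp_log h0]
    congr 1
    omega
  choose k hk using hk
  obtain ⟨y', hy'⟩ := IsDedekindDomain.exists_forall_sub_mem_ideal (s := T)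
    (fun v : HeightOneSpectrum (𝓞 F) => v.asIdeal) (fun v => n + k v)
    (fun v _ => v.prime) (fun v _ w _ h h' => h (HeightOneSpectrum.ext h')) (fun v => b v)
  refine ⟨algebraMap (𝓞 F) F y' / algebraMap (𝓞 F) F (d : 𝓞 F), fun v hv => ?_⟩
  have h1 := hy' v hv
  rw [← v.intValuation_le_pow_iff_mem, ← v.valuation_of_algebraMap (K := F)] at h1
  replace h1 : v.valuation F (algebraMap (𝓞 F) F (y' - b v)) ≤
      WithZero.exp (-((n + k v : ℕ) : ℤ)) := h1
  rw [map_sub] at h1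
  have h2 : algebraMap (𝓞 F) F y' / algebraMap (𝓞 F) F (d : 𝓞 F) - a v =
      (algebraMap (𝓞 F) F y' - algebraMap (𝓞 F) F (b v)) / algebraMap (𝓞 F) F (d : 𝓞 F) := by
    rw [hb'' v hv]
    field_simp
  rw [h2, map_div₀, hk v]
  refine (div_le_iff₀ (by exact WithZero.exp_pos)).2 (h1.trans (le_of_eq ?_))
  rw [← WithZero.exp_add]
  congr 1
  push_cast
  ring

/-- approximation up to local powers -/
lemma apxL (hB : S_BAS) (p : ℕ) [hp : Fact p.Prime] (R : Finset (HeightOneSpectrum (𝓞 F)))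
    (v₀ : HeightOneSpectrum (𝓞 F)) {a : F} (ha : a ≠ 0) :
    ∃ e : F, e ≠ 0 ∧ Lpw p v₀ (e / a) ∧ ∀ w ∈ R, w ≠ v₀ → Lpw p w e := by
  classical
  have hp0 : ((p : F) ^ 2) ≠ 0 := pow_ne_zero _ (Nat.cast_ne_zero.2 hp.out.ne_zero)
  have hval : ∀ w : HeightOneSpectrum (𝓞 F), w.valuation F ((p : F) ^ 2) ≠ 0 := fun w =>
    (Valuation.ne_zero_iff _).2 hp0
  have hva : ∀ w : HeightOneSpectrum (𝓞 F), w.valuation F a ≠ 0 := fun w =>
    (Valuation.ne_zero_iff _).2 ha
  choose N hN using fun w : HeightOneSpectrum (𝓞 F) => exp_lt_of_ne (hval w)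
  obtain ⟨N₀, hN₀⟩ := exp_lt_of_ne (mul_ne_zero (hval v₀) (hva v₀))
  obtain ⟨e, he⟩ := apx (insert v₀ R) (fun w => if w = v₀ then a else 1) (N₀ + ∑ w ∈ R, N w)
  have h1 : Lpw p v₀ (e / a) := by
    refine (hB p F v₀).2.2.2.2.2.1 (e / a) 1 ?_
    have h2 := he v₀ (Finset.mem_insert_self _ _)
    rw [if_pos rfl] at h2
    have h3 : e / a * 1 ^ p - 1 = (e - a) / a := by
      rw [one_pow, mul_one, sub_div, div_self ha]
    rw [h3, map_div₀]
    refine (div_lt_iff₀ (zero_lt_iff.2 (hva v₀))).2 (h2.trans_lt (hN₀ _ (Nat.le_add_right _ _)))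
  refine ⟨e, ?_, h1, ?_⟩
  · intro h
    have h4 := ((hB p F v₀).1 _ h1).1
    rw [h, zero_div] at h4
    exact h4 rfl
  · intro w hw hne
    refine (hB p F w).2.2.2.2.2.1 e 1 ?_
    have h2 := he w (Finset.mem_insert_of_mem hw)
    rw [if_neg hne] at h2
    rw [one_pow, mul_one]
    refine h2.trans_lt (hN w _ ?_)
    exact (Finset.single_le_sum (f := N) (fun _ _ => Nat.zero_le _) hw).trans (Nat.le_add_left _ _)

/-- a family with sum zero which is trivial at almost all places is trivial -/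
lemma uniq (hB : S_BAS) (p : ℕ) [hp : Fact p.Prime] {δ : HeightOneSpectrum (𝓞 F) → F → ZMod p}
    (mul : ∀ v a b, a ≠ 0 → b ≠ 0 → δ v (a * b) = δ v a + δ v b)
    (sum : ∀ a, a ≠ 0 → ∑ᶠ v, δ v a = 0)
    (pw : ∀ v a, Lpw p v a → δ v a = 0) {R : Set (HeightOneSpectrum (𝓞 F))} (hR : R.Finite)
    (out : ∀ v, v ∉ R → ∀ a, a ≠ 0 → δ v a = 0) : ∀ v a, a ≠ 0 → δ v a = 0 := by
  intro v a ha
  by_cases hv : v ∈ R
  swap
  · exact out v hv a ha
  obtain ⟨e, he0, he1, he2⟩ := apxL hB p hR.toFinset v ha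
  have h1 : ∑ᶠ w, δ w e = δ v e := by
    refine finsum_eq_single _ v fun w hw => ?_
    by_cases hwR : w ∈ R
    · exact pw w e (he2 w (hR.mem_toFinset.2 hwR) hw)
    · exact out w hwR e he0
  rw [sum e he0] at h1
  have h2 : e = e / a * a := by field_simp
  have h3 : δ v e = δ v (e / a) + δ v a := by
    conv_lhs => rw [h2]
    exact mul v _ _ (div_ne_zero he0 ha) ha
  rw [← h1, pw v _ he1, zero_add] at h3
  exact h3.symm

/-- the Kummer extension and the norm of `1 - a ^ (1/p)` -/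
lemma exists_kum (p : ℕ) [hp : Fact p.Prime] {a : F} (h : ¬ IsPow p a) :
    ∃ (M : Type) (_ : Field M) (_ : NumberField M) (_ : Algebra F M), Kum p F M a ∧
      ∃ y : M, Algebra.norm F y = 1 - a := by
  have hirr : Irreducible (X ^ p - C a : F[X]) :=
    X_pow_sub_C_irreducible_of_prime hp.out fun b hb => h ⟨b, hb.symm⟩
  have : Fact (Irreducible (X ^ p - C a : F[X])) := ⟨hirr⟩
  have hne : (X ^ p - C a : F[X]) ≠ 0 := hirr.ne_zero
  have hmon : (X ^ p - C a : F[X]).Monic := monic_X_pow_sub_C a hp.out.ne_zero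
  let pb := AdjoinRoot.powerBasis hne
  have : FiniteDimensional F (AdjoinRoot (X ^ p - C a : F[X])) := pb.finite
  have : CharZero (AdjoinRoot (X ^ p - C a : F[X])) :=
    charZero_of_injective_algebraMap (algebraMap F (AdjoinRoot (X ^ p - C a : F[X]))).injective
  have : FiniteDimensional ℚ (AdjoinRoot (X ^ p - C a : F[X])) := Module.Finite.trans F _
  have : NumberField (AdjoinRoot (X ^ p - C a : F[X])) := ⟨⟩
  refine ⟨AdjoinRoot (X ^ p - C a : F[X]), inferInstance, inferInstance, inferInstance, ⟨?_, ?_⟩,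
    1 - AdjoinRoot.root _, ?_⟩
  · rw [pb.finrank]
    change (X ^ p - C a : F[X]).natDegree = p
    exact natDegree_X_pow_sub_C
  · refine ⟨AdjoinRoot.root _, ?_⟩
    have h1 := AdjoinRoot.eval₂_root (X ^ p - C a : F[X])
    rw [eval₂_sub, eval₂_pow, eval₂_X, eval₂_C, sub_eq_zero] at h1
    exact h1
  · have h1 : Algebra.norm F (1 - AdjoinRoot.root (X ^ p - C a : F[X])) =
        ((Algebra.lmul F _ (AdjoinRoot.root (X ^ p - C a : F[X])) :
          AdjoinRoot (X ^ p - C a : F[X]) →ₗ[F] AdjoinRoot (X ^ p - C a : F[X])).charpoly).eval 1 := by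
      rw [LinearMap.eval_charpoly, Algebra.norm_apply, map_sub, map_one, map_one]
    have h2 : (Algebra.lmul F _ (AdjoinRoot.root (X ^ p - C a : F[X])) :
          AdjoinRoot (X ^ p - C a : F[X]) →ₗ[F] AdjoinRoot (X ^ p - C a : F[X])).charpoly =
        minpoly F pb.gen := by
      rw [← charpoly_leftMulMatrix pb, Algebra.leftMulMatrix_apply, LinearMap.charpoly_toMatrix]
      rfl
    rw [h1, h2, AdjoinRoot.minpoly_powerBasis_gen_of_monic hmon]
    simp

end

/-- JOB HS2 -/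
theorem hs2 : S_BAS → S_HS1 → S_HS2 := by
  intro hB h1 p _ hp2 F _ _ ζ hζ
  have hp : p.Prime := Fact.out
  have hodd : Odd p := hp.odd_of_ne_two hp2
  choose! τ hτ using h1 p hp2 F ζ hζ
  have mul : ∀ v a b c, a ≠ 0 → b ≠ 0 → c ≠ 0 → τ c v (a * b) = τ c v a + τ c v b :=
    fun v a b c ha hb hc => (hτ c hc).1 v a b ha hb
  have sum : ∀ a c, a ≠ 0 → c ≠ 0 → {v | τ c v a ≠ 0}.Finite ∧ ∑ᶠ v, τ c v a = 0 :=
    fun a c ha hc => (hτ c hc).2.1 a ha
  have pw : ∀ v a c, Lpw p v a → c ≠ 0 → τ c v a = 0 :=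
    fun v a c ha hc => (hτ c hc).2.2.1 v a ha
  have unr : ∀ v, ¬ Dp p v → ∀ c, c ≠ 0 → vl p v c = 0 → ∀ a, a ≠ 0 →
      τ c v a = vl p v a * sy p ζ v c :=
    fun v hv c hc hvc a ha => (hτ c hc).2.2.2.1 v hv hvc a ha
  have nrm : ∀ c, c ≠ 0 → ∀ (M : Type) [Field M] [NumberField M] [Algebra F M], Kum p F M c →
      ∀ y : M, y ≠ 0 → ∀ v, τ c v (Algebra.norm F y) = 0 :=
    fun c hc => (hτ c hc).2.2.2.2
  -- additivity in the second variable
  have mulc : ∀ v a b c, a ≠ 0 → b ≠ 0 → c ≠ 0 → τ (b * c) v a = τ b v a + τ c v a := by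
    intro v a b c ha hb hc
    have hbc : b * c ≠ 0 := mul_ne_zero hb hc
    have key := uniq hB p (δ := fun v a => τ (b * c) v a - (τ b v a + τ c v a))
      (R := {v | Dp p v} ∪ ({v | vl p v b ≠ 0} ∪ {v | vl p v c ≠ 0})) ?_ ?_ ?_ ?_ ?_ v a ha
    · exact sub_eq_zero.1 key
    · intro v a a' ha ha'
      rw [mul v a a' _ ha ha' hbc, mul v a a' _ ha ha' hb, mul v a a' _ ha ha' hc]
      ring
    · intro a ha
      have f1 := sum a (b * c) ha hbc
      have f2 := sum a b ha hb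
      have f3 := sum a c ha hc
      have f23 : (Function.support fun v => τ b v a + τ c v a).Finite :=
        (f2.1.union f3.1).subset (Function.support_add _ _)
      rw [finsum_sub_distrib f1.1 f23, finsum_add_distrib f2.1 f3.1, f1.2, f2.2, f3.2]
      ring
    · intro v a ha
      rw [pw v a _ ha hbc, pw v a _ ha hb, pw v a _ ha hc]
      ring
    · exact (fin_dp hp.ne_zero).union ((fin_vl p hb).union (fin_vl p hc))
    · intro v hv a ha
      simp only [Set.mem_union, Set.mem_setOf_eq, not_or, not_not] at hv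
      obtain ⟨hv1, hv2, hv3⟩ := hv
      have hv4 : vl p v (b * c) = 0 := by
        rw [(hB p F v).2.2.2.2.1 b c hb hc, hv2, hv3, add_zero]
      have h5 := ((hB p F v).2.2.2.2.2.2 hv1 ζ hζ).2.2.1 b c hb hc hv2 hv3
      rw [unr v hv1 _ hbc hv4 a ha, unr v hv1 _ hb hv2 a ha, unr v hv1 _ hc hv3 a ha, h5]
      ring
  have onec : ∀ v a, a ≠ 0 → τ 1 v a = 0 := by
    intro v a ha
    have h := mulc v a 1 1 ha one_ne_zero one_ne_zero
    rw [mul_one] at h
    exact left_eq_add.1 h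
  have invc : ∀ v a c, a ≠ 0 → c ≠ 0 → τ c⁻¹ v a = - τ c v a := by
    intro v a c ha hc
    have h := mulc v a c c⁻¹ ha hc (inv_ne_zero hc)
    rw [mul_inv_cancel₀ hc, onec v a ha] at h
    exact eq_neg_of_add_eq_zero_right h.symm
  have powc : ∀ v a c, a ≠ 0 → c ≠ 0 → ∀ n : ℕ, τ (c ^ n) v a = n * τ c v a := by
    intro v a c ha hc n
    induction n with
    | zero => rw [pow_zero, onec v a ha, Nat.cast_zero, zero_mul]
    | succ n ih =>
      rw [pow_succ, mulc v a _ _ ha (pow_ne_zero _ hc) hc, ih]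
      push_cast
      ring
  -- Steinberg relation
  have stein : ∀ v a b, a ≠ 0 → b ≠ 0 → a + b = 1 → τ a v b = 0 := by
    intro v a b ha hb hab
    by_cases hpw : IsPow p a
    · obtain ⟨s, hs⟩ := hpw
      have hs0 : s ≠ 0 := by
        rintro rfl
        rw [zero_pow hp.ne_zero] at hs
        exact ha hs
      rw [hs, powc v b s hb hs0 p, CharP.cast_eq_zero, zero_mul]
    · obtain ⟨M, _, _, _, hM, y, hy⟩ := exists_kum (F := F) p hpw
      have hb' : Algebra.norm F y = b := by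
        rw [hy, ← hab]
        ring
      have hy0 : y ≠ 0 := by
        rintro rfl
        have : Nontrivial M := inferInstance
        have : FiniteDimensional F M := by
          refine FiniteDimensional.of_finrank_pos ?_
          rw [hM.deg]
          exact hp.pos
        rw [Algebra.norm_zero] at hb'
        exact hb hb'.symm
      rw [← hb']
      exact nrm a ha M hM y hy0 v
  have neg1 : ∀ v c, c ≠ 0 → τ c v (-1) = 0 := by
    intro v c hc
    refine pw v _ c ?_ hc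
    have h := (hB p F v).2.2.1 (-1) (by norm_num)
    rwa [hodd.neg_one_pow] at h
  have diag : ∀ v a, a ≠ 0 → τ a v a = 0 := by
    intro v a ha
    by_cases ha1 : a = 1
    · rw [ha1]
      exact onec v 1 one_ne_zero
    have h1a : (1 - a) ≠ 0 := sub_ne_zero.2 (Ne.symm ha1)
    have h1a' : (1 - a⁻¹) ≠ 0 := by
      rw [sub_ne_zero]
      intro h
      apply ha1
      rw [← inv_inv a, ← h, inv_one]
    have e1 := stein v a (1 - a) ha h1a (by ring)
    have e2 := stein v a⁻¹ (1 - a⁻¹) (inv_ne_zero ha) h1a' (by ring)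
    rw [invc v _ a h1a' ha, neg_eq_zero] at e2
    have e3 : 1 - a = -a * (1 - a⁻¹) := by
      field_simp
      ring
    rw [e3, mul v (-a) (1 - a⁻¹) a (neg_ne_zero.2 ha) h1a' ha, e2, add_zero] at e1
    have e4 : -a = -1 * a := by ring
    rw [e4, mul v (-1) a a (by norm_num) ha ha, neg1 v a ha, zero_add] at e1
    exact e1
  refine ⟨fun v a c => τ c v a, ?_, mul, sum, pw, unr, nrm⟩
  intro v a c ha hc
  have h := diag v (a * c) (mul_ne_zero ha hc)
  rw [mul v a c _ ha hc (mul_ne_zero ha hc), mulc v a a c ha ha hc, mulc v c a c hc ha hc,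
    diag v a ha, diag v c hc, zero_add, add_zero] at h
  exact eq_neg_of_add_eq_zero_left h

end Pool.Agent.Q162.LK
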